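import Pool.Agent.N483.KM.StmW
import Pool.Agent.Y824.PV.Cap
import Pool.Agent.R754.KG.F

/-!
From the bodies over a weight to the weight (part of the project KM of helper483).
-/

set_option autoImplicit false

namespace Pool.Agent.N930.KM

open MeasureTheory Set Filter Topology
open scoped ENNReal InnerProductSpace
open Pool.Agent.R754.KG (E un sl Rv un_img VW_ind EW_ind)
open Pool.Agent.R755.KF (CB)
open Pool.Agent.Y506.PV (CcW ind LCn)
open Pool.Agent.Y506.RG (EW VW Adm)
open Pool.Agent.N483.KM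

theorem EW_img {n M m : ℕ} {w : E n → ℝ} (hB : CB (BW w M))
    (hF : ∀ F : E n × E M → ℝ, Continuous F →
      ∫ z in BW w M, F z = ∫ x, (∫ u in qb M, F (x, gM w M x • u)) * gM w M x ^ M)
    (e : (E n × E M) ≃ₗ[ℝ] E m) (f : E n → ℝ) (hf : Continuous f) :
    EW (ind (e '' BW w M)) (fun z => f (e.symm z).1) = EW (fun x => gM w M x ^ M) f := by
  have hKf : volume (BW w M) ≠ ⊤ := hB.comp.measure_lt_top.ne
  have hme : MeasurableSet (e '' BW w M) := by
    let e' : (E n × E M) ≃L[ℝ] E m := e.toContinuousLinearEquiv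
    exact e'.toHomeomorph.measurableEmbedding.measurableSet_image.2 hB.comp.measurableSet
  rw [EW_ind hme, un_img e hB.pos.ne' hKf]
  have e1 : ∀ z : E n × E M, f (e.symm (e z)).1 = f z.1 := fun z => by rw [e.symm_apply_apply]
  simp only [e1]
  have h1 := hF (fun z => f z.1) (hf.comp continuous_fst)
  have h2 := hF (fun _ => 1) continuous_const
  simp only [setIntegral_const, smul_eq_mul, mul_one] at h1 h2
  unfold un
  rw [integral_smul_measure, h1, ENNReal.toReal_inv, smul_eq_mul]
  unfold EW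
  have e2 : ∫ x, volume.real (qb M) * f x * gM w M x ^ M
      = volume.real (qb M) * ∫ x, f x * gM w M x ^ M := by
    rw [← integral_const_mul]
    congr 1
    funext x
    ring
  have e3 : ∫ x, volume.real (qb M) * gM w M x ^ M
      = volume.real (qb M) * ∫ x, gM w M x ^ M := integral_const_mul _ _
  rw [e2]
  rw [e3] at h2
  have h3 : 0 < volume.real (BW w M) := ENNReal.toReal_pos hB.pos.ne' hKf
  have h4 : (volume (BW w M)).toReal = volume.real (qb M) * ∫ x, gM w M x ^ M := h2
  rw [h4]
  have h5 : volume.real (qb M) ≠ 0 := by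
    intro h
    rw [h, zero_mul] at h2
    exact h3.ne' h2
  have h6 : (∫ x, gM w M x ^ M) ≠ 0 := by
    intro h
    rw [h, mul_zero] at h2
    exact h3.ne' h2
  field_simp

theorem VW_img {n M m : ℕ} {w : E n → ℝ} (hB : CB (BW w M))
    (hF : ∀ F : E n × E M → ℝ, Continuous F →
      ∫ z in BW w M, F z = ∫ x, (∫ u in qb M, F (x, gM w M x • u)) * gM w M x ^ M)
    (e : (E n × E M) ≃ₗ[ℝ] E m) (f : E n → ℝ) (hf : Continuous f) :
    VW (ind (e '' BW w M)) (fun z => f (e.symm z).1) = VW (fun x => gM w M x ^ M) f := by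
  unfold VW
  rw [EW_img hB hF e f hf, EW_img hB hF e (fun x => f x ^ 2) (hf.pow 2)]

theorem Cc_img {n M m : ℕ} {w : E n → ℝ} {κ δ : ℝ} (hB : CB (BW w M))
    (hF : ∀ F : E n × E M → ℝ, Continuous F →
      ∫ z in BW w M, F z = ∫ x, (∫ u in qb M, F (x, gM w M x • u)) * gM w M x ^ M)
    (e : (E n × E M) ≃ₗ[ℝ] E m) (h : CcW κ δ (ind (e '' BW w M))) :
    CcW κ δ (fun x => gM w M x ^ M) := by
  intro k hk T s hs hT v hv hvb hd
  have hm : n + M = m := by
    have h1 := e.finrank_eq
    simpa [Module.finrank_prod] using h1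
  have h2 := h k (by omega) (T ∘ₗ (LinearMap.fst ℝ (E n) (E M)) ∘ₗ e.symm.toLinearMap) s hs
    (fun θ hθ => by
      have h3 := hT θ hθ
      rw [← VW_img hB hF e (fun x => ⟪T x, θ⟫_ℝ)
        ((T.continuous_of_finiteDimensional).inner continuous_const)] at h3
      exact h3) v hv hvb hd
  rw [← VW_img hB hF e (fun x => v (T x))
    (hv.continuous.comp T.continuous_of_finiteDimensional)]
  exact h2

theorem t_BWI (h1 : S_BWG) (h2 : S_WMC) : S_BWI := by
  classical
  intro n κ δ w hκ hw hev
  obtain ⟨hadm, -, hlim, -, -⟩ := h2 n w hw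
  set W : ℕ → E n → ℝ := fun M => if Adm (fun x => gM w M x ^ M) then fun x => gM w M x ^ M else w
    with hW
  have hWe : ∀ᶠ M : ℕ in atTop, W M = fun x => gM w M x ^ M := by
    filter_upwards [hadm] with M hM
    simp only [hW]
    rw [if_pos hM]
  refine Pool.Agent.Y824.PV.limc n κ δ w W hκ hw.adm.int hw.adm.pos ?_ ?_ ?_
  · intro M
    by_cases hM : Adm (fun x => gM w M x ^ M)
    · have : W M = fun x => gM w M x ^ M := by simp only [hW]; rw [if_pos hM]
      rw [this]
      exact hM.int
    · have : W M = w := by simp only [hW]; rw [if_neg hM]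
      rw [this]
      exact hw.adm.int
  · refine hlim.congr' ?_
    filter_upwards [hWe] with M hM
    rw [hM]
  · filter_upwards [hWe, h1 n w hw, hev] with M hM hB hcc
    obtain ⟨m, e, hcc⟩ := hcc
    rw [hM]
    exact Cc_img hB.1 hB.2 e hcc

end Pool.Agent.N930.KM
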